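import Pool.Agent.Helper873_ExM.Excl

set_option autoImplicit false

namespace Pool.Agent.Results.MP_cf16d9_co.NonFanoExcludedMinor

open ExM873 Matroid

/-- Some minor `N` of the non-Fano matroid is an excluded minor of the class `M'` of matroids that
are regular or have the p-characteristic set of `U_{2,4}`, and `N` is none of `U_{2,5}`, `U_{3,5}`,
`F_7`, `F_7^*`.  Hence the excluded minors of `M'` are not exactly these four.  The reason: no even
integer is in the p-characteristic set of the non-Fano matroid. -/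
theorem result :
    (∃ N : Matroid (Fin 7), N ≤m nonFano ∧ IsExcludedMinor N ∧
      ¬ IsUnif 2 5 N ∧ ¬ IsUnif 3 5 N ∧ ¬ IsFano N ∧ ¬ IsFano N✶) ∧
    (¬ ∀ (α : Type) [Finite α] (M : Matroid α), IsExcludedMinor M ↔
      (IsUnif 2 5 M ∨ IsUnif 3 5 M ∨ IsFano M ∨ IsFano M✶)) ∧
    (∀ v : ℤ, Even v → v ∉ chi nonFano) := by
  obtain ⟨N, hN, hex⟩ := exists_minimal
  have h1 := not_U25 N hN
  have h2 := not_U35 N hN
  have h3 := not_F7 N hN
  have h4 := not_F7dual N hN
  refine ⟨⟨N, hN, hex, h1, h2, h3, h4⟩, ?_, no_even_chi⟩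
  intro h
  rcases (h (Fin 7) N).1 hex with h5 | h5 | h5 | h5
  · exact h1 h5
  · exact h2 h5
  · exact h3 h5
  · exact h4 h5

end Pool.Agent.Results.MP_cf16d9_co.NonFanoExcludedMinor
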